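import Pool.Agent.H99.Koch2

set_option autoImplicit false

open Filter Topology Set ComplexConjugate

namespace Pool.Agent.Results.MP_b9fb92_an.KochEmbedding

/-- left endpoint of the `j`-th interval -/
def lft {d : ℕ} (μ : Fin d → ℝ) (j : Fin d) : ℝ := ∑ k with k < j, μ k

/-- the `j`-th interval `I_j` -/
def atom {d : ℕ} (μ : Fin d → ℝ) (j : Fin d) : Set ℝ := Ico (lft μ j) (lft μ j + μ j)

/-- the interval `I` -/
def dom {d : ℕ} (μ : Fin d → ℝ) : Set ℝ := Ico 0 (∑ k, μ k)

/-- the interval exchange map `x ↦ x + τ_j` on `I_j` -/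
noncomputable def iet {d : ℕ} (π : Equiv.Perm (Fin d)) (μ : Fin d → ℝ) (x : ℝ) : ℝ :=
  x + ∑ j, (atom μ j).indicator (fun _ => (∑ k with π k < π j, μ k) - lft μ j) x

open Pool.Agent.H99.Koch in
theorem result (d : ℕ) (hd : 3 ≤ d) :
    ∃ (π : Equiv.Perm (Fin d)) (μ : Fin d → ℝ) (X : Fin d → Set ℂ) (θ : Fin d → ℝ)
      (l : Fin d → ℂ) (T : ℂ → ℂ) (h : ℝ → ℂ),
      (∀ k, 1 ≤ k → k < d → π '' {j | j.val < k} ≠ {j | j.val < k}) ∧ (∀ j, 0 < μ j) ∧
      (∀ x ∈ dom μ, dom μ ⊆ closure (range fun n : ℕ => (iet π μ)^[n] x)) ∧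
      (∀ j, Convex ℝ (X j)) ∧ Pairwise (fun i j => Disjoint (X i) (X j)) ∧ ⋃ j, X j = univ ∧
      (∀ j, θ j ∈ Ico 0 (2 * Real.pi)) ∧
      (∀ j, ∀ z ∈ X j, T z = Complex.exp (Complex.I * θ j) * z + l j) ∧
      IsEmbedding ((dom μ).domRestrict h) ∧ (∀ j, MapsTo h (atom μ j) (X j)) ∧
      T '' (h '' dom μ) = h '' dom μ ∧ (∀ x ∈ dom μ, h (iet π μ x) = T (h x)) ∧
      (¬ ∃ z w : Fin d → ℂ, ∀ j, ∀ x ∈ atom μ j, h x = z j + w j * x) ∧
      (¬ ∃ (z : Fin d → ℂ) (r p q : Fin d → ℝ), ∀ j, 0 < r j ∧ ∀ x ∈ atom μ j,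
        h x = z j + r j * Complex.exp (Complex.I * (p j * x + q j))) ∧
      ∀ x y, x < y → Icc x y ⊆ dom μ →
        ¬ Collinear ℝ (h '' Icc x y) ∧ ¬ EuclideanGeometry.Cospherical (h '' Icc x y) := by
  obtain ⟨m, rfl⟩ : ∃ m, d = m + 3 := ⟨d - 3, by omega⟩
  obtain ⟨G, hG⟩ := exists_curve
  have := a2; have := alo; have := ahi
  let c : ℕ → ℝ := fun j => if j = 0 then 0 else if j ≤ m + 1 then (a ^ 2) ^ (m + 2 - j) + a
    else if j = m + 2 then 1 else a + j - (m + 2)
  let r : ℕ → ℝ := fun j => if j = 0 then 0 else if j ≤ m + 1 then (25 / 144) ^ (m + 2 - j)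
    else 169 / 288 + j - (m + 2)
  have c0 : c 0 = 0 := rfl
  have c1 : c (m + 1) = 1 - a := by simp [c]; linarith
  have c2 : c (m + 2) = 1 := by simp [c]
  have c3 : c (m + 3) = 1 + a := by simp [c]; linarith
  have r1 : r (m + 1) = 25 / 144 := by simp [r]
  have r2 : r (m + 2) = 169 / 288 := by simp [r]
  have pw : ∀ b : ℝ, 0 < b → b < 1 → ∀ j < m + 1, b ^ (m + 2 - j) < b ^ (m + 2 - (j + 1)) :=
    fun b h k j hj => pow_lt_pow_right_of_lt_one₀ h k (by omega)
  have cm : StrictMono c := strictMono_nat_of_lt_succ fun j => by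
    rcases lt_trichotomy j (m + 1) with k | rfl | k
    · simp only [c, if_neg j.succ_ne_zero, if_pos (Nat.succ_le_of_lt k), if_pos k.le]
      split_ifs
      · positivity
      · linarith [pw (a ^ 2) (by positivity) (by linarith) j k]
    · rw [c1, c2]; linarith
    · simp only [c, if_neg j.succ_ne_zero, if_neg (by omega : ¬ j + 1 ≤ m + 1),
        if_neg (by omega : ¬ j + 1 = m + 2), if_neg (by omega : ¬ j = 0), if_neg k.not_ge]
      split_ifs with e
      · subst e; push_cast; linarith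
      · push_cast; linarith
  have rm : StrictMono r := strictMono_nat_of_lt_succ fun j => by
    rcases lt_trichotomy j (m + 1) with k | rfl | k
    · simp only [r, if_neg j.succ_ne_zero, if_pos (Nat.succ_le_of_lt k), if_pos k.le]
      split_ifs
      · positivity
      · exact pw _ (by norm_num) (by norm_num) j k
    · rw [r1, r2]; norm_num
    · simp only [r, if_neg j.succ_ne_zero, if_neg (by omega : ¬ j + 1 ≤ m + 1),
        if_neg (by omega : ¬ j = 0), if_neg k.not_ge]
      push_cast; linarith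
  let h : ℝ → ℂ := fun t => H G (t - a)
  have sep : ∀ j, j ≠ 0 → j ≤ m + 2 → ∀ t ∈ Ico 0 (1 + a), t < c j ↔ (h t).re < r j :=
    fun j k k' t ht => by
      rcases k'.eq_or_lt with rfl | k'
      · rw [c2, r2, ← hG.Hsep2 (by linarith [ht.1]) (by linarith [ht.2]), sub_lt_sub_iff_right]
      · simp only [c, r, if_neg k, if_pos (Nat.le_of_lt_succ k')]
        rw [← hG.Hsep _ (by linarith [ht.1]) (by linarith [ht.2]), sub_lt_iff_lt_add]
  let μ : Fin (m + 3) → ℝ := fun j => c (j + 1) - c j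
  let π : Equiv.Perm (Fin (m + 3)) :=
    ⟨fun j => ⟨if j.val ≤ m then j + 2 else j - (m + 1), by split_ifs <;> omega⟩,
      fun j => ⟨if j.val < 2 then j + (m + 1) else j - 2, by split_ifs <;> omega⟩,
      fun j => by ext; dsimp only; split_ifs <;> omega,
      fun j => by ext; dsimp only; split_ifs <;> omega⟩
  have πv : ∀ j, (π j).val = if j.val ≤ m then j.val + 2 else j - (m + 1) := fun _ => rfl
  have sm : ∀ (p : Fin (m + 3) → Prop) [DecidablePred p] (q : ℕ → Prop) [DecidablePred q],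
      (∀ k, p k ↔ q k) → ∑ k with p k, μ k =
        ∑ k ∈ Finset.range (m + 3), if q k then c (k + 1) - c k else 0 := fun p _ q _ e => by
    rw [Finset.sum_filter, ← Fin.sum_univ_eq_sum_range fun k => if q k then c (k + 1) - c k else 0]
    simp only [e, μ]
  have lc : ∀ j, lft μ j = c j := fun j => by
    rw [lft, sm (· < j) (· < j.val) fun _ => Iff.rfl, ← Finset.sum_filter,
      show {k ∈ Finset.range (m + 3) | k < j.val} = Finset.range j from by ext; simp; omega,
      Finset.sum_range_sub, c0, sub_zero]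
  have at' : ∀ j, atom μ j = Ico (c j) (c (j + 1)) := fun j => by simp [atom, lc, μ]
  have dm : dom μ = Ico 0 (1 + a) := by
    rw [dom, Fin.sum_univ_eq_sum_range fun k => c (k + 1) - c k, Finset.sum_range_sub, c0, c3,
      sub_zero]
  have sub : ∀ j, atom μ j ⊆ Ico 0 (1 + a) := fun j => by
    rw [at', ← c0, ← c3]
    exact Ico_subset_Ico (cm.monotone (by omega)) (cm.monotone (by omega))
  have tau : ∀ j, (∑ k with π k < π j, μ k) - lft μ j = if j.val ≤ m then 2 * a else a - 1 := by
    intro j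
    rw [lft, sm (· < j) (· < j.val) fun _ => Iff.rfl, sm _ (fun k =>
      (if k ≤ m then k + 2 else k - (m + 1)) < (π j).val) fun k => by rw [← πv]; rfl,
      ← Finset.sum_sub_distrib, Finset.sum_range_succ, Finset.sum_range_succ, πv]
    have := j.2
    split_ifs with e <;> try omega
    · rw [Finset.sum_eq_zero fun k hk => by
        rw [Finset.mem_range] at hk; split_ifs <;> first | omega | simp]
      linarith
    all_goals
      rw [Finset.sum_congr rfl (g := fun k => c k - c (k + 1)) fun k hk => by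
        rw [Finset.mem_range] at hk; split_ifs <;> first | omega | simp, Finset.sum_range_sub']
      linarith
  have fv : ∀ t ∈ Ico 0 (1 + a), iet π μ t = if t < 1 - a then t + 2 * a else t - (1 - a) := by
    intro t ht
    have ex : ∃ j, t < c (j + 1) := ⟨m + 2, c3 ▸ ht.2⟩
    have le : Nat.find ex ≤ m + 2 := Nat.find_le (c3 ▸ ht.2)
    have lo : c (Nat.find ex) ≤ t := by
      rcases e : Nat.find ex with _ | k
      · exact ht.1
      · exact not_lt.1 (Nat.find_min ex (by omega))
    have hi := Nat.find_spec ex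
    set j := Nat.find ex
    rw [iet, Finset.sum_eq_single ⟨j, by omega⟩, indicator_of_mem (at' _ ▸ ⟨lo, hi⟩), tau]
    · by_cases e : j ≤ m
      · rw [if_pos e, if_pos (hi.trans_le (c1 ▸ cm.monotone (by omega)))]
      · rw [if_neg e, if_neg (not_lt.2 (c1 ▸ (cm.monotone (by omega)).trans lo))]; ring
    · refine fun i _ k => indicator_of_notMem (fun n => k (Fin.ext ?_)) _
      rw [at'] at n
      have := cm.lt_iff_lt.1 (n.1.trans_lt hi)
      have := cm.lt_iff_lt.1 (lo.trans_lt n.2)
      dsimp only; omega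
    · simp
  let X : Fin (m + 3) → Set ℂ := fun j =>
    {z | j.val = 0 ∨ r j ≤ z.re} ∩ {z | j.val = m + 2 ∨ z.re < r (j + 1)}
  let T : ℂ → ℂ := fun z => if z.re < 25 / 144 then z + 119 / 144 else
    if z.re < 169 / 288 then v / conj v * (z - 1 + v) else conj v / v * (z - 1 + v)
  have cj : ∀ t ∈ Ico 0 (1 + a), h (iet π μ t) = T (h t) := fun t ht => by
    have s1 := sep (m + 1) (by omega) (by omega) t ht
    have s2 := sep (m + 2) (by omega) (by omega) t ht
    rw [c1, r1] at s1
    rw [c2, r2] at s2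
    simp only [fv t ht, T, ← s1, ← s2]
    split_ifs with k k'
    · exact (congrArg (H G) (by ring)).trans (hG.T1 (by linarith [ht.1]) (by linarith))
    · exact (congrArg (H G) (by ring)).trans (hG.T2 (by linarith) (by linarith))
    · exact (congrArg (H G) (by ring)).trans (hG.T3 (by linarith) (by linarith [ht.2]))
  have fm : ∀ t ∈ Ico 0 (1 + a), iet π μ t ∈ Ico 0 (1 + a) ∧
      (iet π μ t = t + 2 * a ∨ iet π μ t = t + 2 * a - (1 + a)) := fun t ht => by
    rw [fv t ht]
    split_ifs with k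
    · exact ⟨⟨by linarith [ht.1], by linarith⟩, .inl rfl⟩
    · exact ⟨⟨by linarith, by linarith [ht.2]⟩, .inr (by ring)⟩
  have nc : ∀ x y, x < y → Icc x y ⊆ Ico 0 (1 + a) → ¬ Circ (h '' Icc x y) := fun x y k s n =>
    hG.Hcirc (x := x - a) (y := y - a) (by linarith [(s (left_mem_Icc.2 k.le)).1])
      (by linarith [(s (right_mem_Icc.2 k.le)).2]) (by linarith) (n.mono (by
        rintro _ ⟨w, hw, rfl⟩
        exact ⟨w + a, ⟨by linarith [hw.1], by linarith [hw.2]⟩, by simp [h]⟩))
  have n0 := nc 0 (c 1 / 2) (half_pos (c0 ▸ cm one_pos)) ((Icc_subset_Ico_right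
    (half_lt_self (c0 ▸ cm one_pos))).trans (by simpa [at', c0] using sub 0))
  have a0' : ∀ x ∈ Icc 0 (c 1 / 2), x ∈ atom μ 0 := fun x hx => by
    simpa [at', c0] using Icc_subset_Ico_right (half_lt_self (c0 ▸ cm one_pos)) hx
  obtain ⟨θ1, t1, e1⟩ := exists_angle (w := v / conj v) (by simp [v0])
  obtain ⟨θ2, t2, e2⟩ := exists_angle (w := conj v / v) (by simp [v0])
  refine ⟨π, μ, X, fun j => if j.val ≤ m then 0 else if j.val = m + 1 then θ1 else θ2,
    fun j => if j.val ≤ m then 119 / 144 else if j.val = m + 1 then v / conj v * (v - 1)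
      else conj v / v * (v - 1), T, h, fun k k1 k2 e => ?_, fun j => sub_pos.2 (cm (by omega)),
    ?_, fun j => Convex.inter ?_ ?_, ?_, ?_, fun j => ?_, fun j z hz => ?_, ?_, fun j t ht => ?_,
    ?_, dm ▸ cj, ?_, ?_, fun x y k s => not_or.1 fun n => nc x y k (dm ▸ s) (circ_of n)⟩
  · have := (e ▸ mem_image_of_mem π (show (⟨min (k - 1) m, by omega⟩ : Fin (m + 3)) ∈
      {j : Fin (m + 3) | j.val < k} by simp; omega) :)
    simp only [mem_ofPred_eq, πv] at this
    split_ifs at this <;> omega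
  · rw [dm]
    refine rot_dense (by linarith) ?_ fm
    have : 2 * a / (1 + a) = (2 : ℕ) - √2 := by
      rw [div_eq_iff (by linarith), show √2 = a + 1 by simp [a]]; push_cast; linarith
    rw [this]
    exact irrational_sqrt_two.natCast_sub 2
  · by_cases k : j.val = 0 <;> simp [k, convex_univ, convex_halfSpace_re_ge]
  · by_cases k : j.val = m + 2 <;> simp [k, convex_univ, convex_halfSpace_re_lt]
  · refine pairwise_disjoint_on X |>.2 fun i j k => disjoint_left.2 fun z hi hj => ?_
    have := j.2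
    have k' : i.val < j.val := k
    exact ((hi.2.resolve_left (by omega)).trans_le (rm.monotone k')).not_ge
      (hj.1.resolve_left (by omega))
  · refine eq_univ_of_forall fun z => ?_
    have ex : ∃ j, j = m + 2 ∨ z.re < r (j + 1) := ⟨_, .inl rfl⟩
    have le : Nat.find ex ≤ m + 2 := Nat.find_le (.inl rfl)
    refine mem_iUnion.2 ⟨⟨Nat.find ex, by omega⟩, ?_, Nat.find_spec ex⟩
    show Nat.find ex = 0 ∨ r (Nat.find ex) ≤ z.re
    rcases e : Nat.find ex with _ | k
    · exact .inl rfl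
    · exact .inr (not_lt.1 (not_or.1 (Nat.find_min ex (by omega : k < _))).2)
  · dsimp only
    split_ifs
    exacts [⟨le_rfl, Real.two_pi_pos⟩, t1, t2]
  · have := j.2
    by_cases k : j.val ≤ m
    · have hi := (hz.2.resolve_left (by omega)).trans_le (rm.monotone (by omega : _ ≤ m + 1))
      simp [T, k, hi.trans_eq r1]
    have lo := not_lt.2 (r1 ▸ (rm.monotone (by omega)).trans (hz.1.resolve_left (by omega)))
    by_cases k' : j.val = m + 1
    · have hi := hz.2.resolve_left (by omega)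
      rw [k', r2] at hi
      simp only [T, if_neg k, if_pos k', if_neg lo, if_pos hi, e1]; ring
    · have hi := hz.1.resolve_left (by omega)
      rw [show j.val = m + 2 by omega, r2] at hi
      simp only [T, if_neg k, if_neg k', if_neg lo, if_neg hi.not_gt, e2]; ring
  · rw [dm]
    have hc : Continuous h := hG.Hc.comp (by fun_prop)
    have hi : InjOn h (Icc 0 (1 + a)) := fun x hx y hy e => sub_left_injective
      (hG.Hinj ⟨by linarith [hx.1], by linarith [hx.2]⟩ ⟨by linarith [hy.1], by linarith [hy.2]⟩ e)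
    have : IsEmbedding ((Icc 0 (1 + a)).domRestrict h) := (Continuous.isClosedEmbedding
      (hc.comp continuous_subtype_val) fun x y e => Subtype.ext (hi x.2 y.2 e)).isEmbedding
    exact this.comp (IsEmbedding.inclusion Ico_subset_Icc_self)
  · have s := sub j ht
    have := j.2
    rw [at'] at ht
    exact ⟨or_iff_not_imp_left.2 fun k => not_lt.1 ((sep _ k (by omega) t s).not.1 ht.1.not_gt),
      or_iff_not_imp_left.2 fun k => (sep _ (by omega) (by omega) t s).1 ht.2⟩
  · rw [dm, image_image, ← image_congr cj]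
    refine Subset.antisymm ?_ ?_ <;> rintro _ ⟨t, ht, rfl⟩
    · exact ⟨_, (fm t ht).1, rfl⟩
    rcases le_or_gt (2 * a) t with k | k
    · have : t - 2 * a ∈ Ico 0 (1 + a) := ⟨by linarith, by linarith [ht.2]⟩
      exact ⟨_, this, by simp only [fv _ this, if_pos (show t - 2 * a < 1 - a by linarith [ht.2]),
        sub_add_cancel]⟩
    · have : t + (1 - a) ∈ Ico 0 (1 + a) := ⟨by linarith [ht.1], by linarith⟩
      exact ⟨_, this, by simp only [fv _ this, if_neg (show ¬ t + (1 - a) < 1 - a by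
        linarith [ht.1]), add_sub_cancel_right]⟩
  · rintro ⟨z, w, e⟩
    refine n0 (circ_of (.inl ((collinear_iff_exists_forall_eq_smul_vadd _).2 ⟨z 0, w 0, ?_⟩)))
    rintro _ ⟨x, hx, rfl⟩
    exact ⟨x, by simp [e 0 x (a0' x hx), add_comm, mul_comm]⟩
  · rintro ⟨z, ρ, p, q, e⟩
    refine n0 (circ_of (.inr ⟨z 0, ρ 0, ?_⟩))
    rintro _ ⟨x, hx, rfl⟩
    simp [(e 0).2 x (a0' x hx), Complex.norm_exp, (e 0).1.le]

end Pool.Agent.Results.MP_b9fb92_an.KochEmbedding
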